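import Pool.Agent.H92.EU1

namespace Pool.Agent.Results.MP_d5a48f_an.Cellular

open Set Filter Topology Real Pool.Agent.H92.EU
open scoped NNReal ENNReal

/-- the plane -/
abbrev E := EuclideanSpace ℝ (Fin 2)

/-- the flat torus `ℝ² / (2πℤ)²` with its flat distance -/
abbrev T2 := PiLp 2 fun _ : Fin 2 => AddCircle (2 * π)

/-- the covering map from the plane to the torus -/
noncomputable def proj (x : E) : T2 := WithLp.toLp 2 fun i => ((x i : ℝ) : AddCircle (2 * π))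

noncomputable def U (x : E) : E :=
  (sin (x 0) * cos (x 1)) • EuclideanSpace.single 0 1 + (-cos (x 0) * sin (x 1)) • EuclideanSpace.single 1 1

noncomputable def P (x : E) : ℝ := (cos (x 0) ^ 2 + cos (x 1) ^ 2) / 2

lemma co (i : Fin 2) (x : E) : HasFDerivAt (fun x : E => x i) (EuclideanSpace.proj i : E →L[ℝ] ℝ) x :=
  (EuclideanSpace.proj i : E →L[ℝ] ℝ).hasFDerivAt

lemma U_cd : ContDiff ℝ ⊤ U := by
  have h (i : Fin 2) : ContDiff ℝ ⊤ fun x : E => x i := (EuclideanSpace.proj i : E →L[ℝ] ℝ).contDiff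
  exact (((h 0).sin.mul (h 1).cos).smul contDiff_const).add
    (((h 0).cos.neg.mul (h 1).sin).smul contDiff_const)

lemma P_cd : ContDiff ℝ ⊤ P := by
  have h (i : Fin 2) : ContDiff ℝ ⊤ fun x : E => x i := (EuclideanSpace.proj i : E →L[ℝ] ℝ).contDiff
  exact (((h 0).cos.pow 2).add ((h 1).cos.pow 2)).div_const 2

lemma dU (x v : E) : fderiv ℝ U x v =
    (cos (x 0) * cos (x 1) * v 0 - sin (x 0) * sin (x 1) * v 1) • EuclideanSpace.single 0 1 +
    (sin (x 0) * sin (x 1) * v 0 - cos (x 0) * cos (x 1) * v 1) • EuclideanSpace.single 1 1 := by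
  have h := (((co 0 x).sin.mul (co 1 x).cos).smul_const (EuclideanSpace.single 0 1 : E)).add
    (((co 0 x).cos.neg.mul (co 1 x).sin).smul_const (EuclideanSpace.single 1 1 : E))
  have e : fderiv ℝ U x = _ := h.fderiv
  rw [e]
  ext i
  fin_cases i <;> simp <;> ring

lemma gP (x : E) : gradient P x =
    (-(sin (x 0) * cos (x 0))) • EuclideanSpace.single 0 1 +
    (-(sin (x 1) * cos (x 1))) • EuclideanSpace.single 1 1 := by
  refine HasGradientAt.gradient (hasGradientAt_iff_hasFDerivAt.2 ?_)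
  have h := (((co 0 x).cos.pow 2).add ((co 1 x).cos.pow 2)).const_mul (1 / 2 : ℝ)
  have e : P = fun x : E => (1 / 2 : ℝ) * (cos (x 0) ^ 2 + cos (x 1) ^ 2) := by
    funext x; rw [P]; ring
  rw [e]
  refine h.congr_fderiv ?_
  ext v
  simp [inner_add_left, inner_smul_left, EuclideanSpace.inner_single_left]
  ring

lemma nb (a b : ℝ) : ‖(a • EuclideanSpace.single 0 1 + b • EuclideanSpace.single 1 1 : E)‖ ≤ |a| + |b| := by
  refine (norm_add_le _ _).trans ?_
  simp [norm_smul]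

lemma mb (a b : ℝ) (ha : |a| ≤ 1) (hb : |b| ≤ 1) : |a * b| ≤ 1 := by
  rw [abs_mul]; exact mul_le_one₀ ha (abs_nonneg _) hb

lemma U_le (x : E) : ‖U x‖ ≤ 4 := by
  refine (nb _ _).trans ?_
  linarith [mb _ _ (abs_sin_le_one (x 0)) (abs_cos_le_one (x 1)),
    mb (-cos (x 0)) _ (by rw [abs_neg]; exact abs_cos_le_one (x 0)) (abs_sin_le_one (x 1))]

lemma dU_le (x : E) : ‖fderiv ℝ U x‖ ≤ 4 := by
  refine ContinuousLinearMap.opNorm_le_bound _ (by norm_num) fun v => ?_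
  rw [dU]
  refine (nb _ _).trans ?_
  have h (a : ℝ) (i : Fin 2) (ha : |a| ≤ 1) : |a * v i| ≤ ‖v‖ := by
    rw [abs_mul]
    exact (mul_le_of_le_one_left (abs_nonneg _) ha).trans (PiLp.norm_apply_le v i)
  have a1 := mb _ _ (abs_cos_le_one (x 0)) (abs_cos_le_one (x 1))
  have a2 := mb _ _ (abs_sin_le_one (x 0)) (abs_sin_le_one (x 1))
  linarith [abs_sub (cos (x 0) * cos (x 1) * v 0) (sin (x 0) * sin (x 1) * v 1),
    abs_sub (sin (x 0) * sin (x 1) * v 0) (cos (x 0) * cos (x 1) * v 1),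
    h _ 0 a1, h _ 1 a1, h _ 0 a2, h _ 1 a2]

lemma U_lip : LipschitzWith 4 U :=
  lipschitzWith_of_nnnorm_fderiv_le (U_cd.differentiable (by simp)) fun x => by
    exact_mod_cast dU_le x

lemma per {x y : E} (h : proj x = proj y) (i : Fin 2) :
    sin (x i) = sin (y i) ∧ cos (x i) = cos (y i) := by
  have h1 : ((x i : ℝ) : AddCircle (2 * π)) = (y i : ℝ) := congrArg (fun z : T2 => z i) h
  obtain ⟨k, hk⟩ := AddSubgroup.mem_zmultiples_iff.1 (QuotientAddGroup.eq.1 h1)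
  have : y i = x i + k * (2 * π) := by rw [zsmul_eq_mul] at hk; linarith
  rw [this, sin_add_int_mul_two_pi, cos_add_int_mul_two_pi]
  exact ⟨rfl, rfl⟩

lemma proj_lip : LipschitzWith 1 proj := by
  refine LipschitzWith.of_dist_le_mul fun x y => ?_
  rw [NNReal.coe_one, one_mul, PiLp.dist_eq_of_L2, PiLp.dist_eq_of_L2]
  refine sqrt_le_sqrt (Finset.sum_le_sum fun i _ => pow_le_pow_left₀ dist_nonneg ?_ 2)
  show dist ((x i : ℝ) : AddCircle (2 * π)) ((y i : ℝ) : AddCircle (2 * π)) ≤ _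
  rw [dist_eq_norm, dist_eq_norm, ← AddCircle.coe_sub]
  exact QuotientAddGroup.norm_mk_le_norm

lemma one_le {x y : E} (i : Fin 2) (hx : x i = 0) (hy : y i = 1) : 1 ≤ dist (proj x) (proj y) := by
  refine le_trans ?_ (PiLp.dist_apply_le (proj x) (proj y) i)
  show 1 ≤ dist ((x i : ℝ) : AddCircle (2 * π)) ((y i : ℝ) : AddCircle (2 * π))
  rw [hx, hy, dist_comm, dist_eq_norm, ← AddCircle.coe_sub, sub_zero,
    (AddCircle.norm_coe_eq_abs_iff (2 * π) (by positivity)).2 (by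
      rw [abs_one, abs_of_pos (by positivity)]; linarith [pi_gt_three]), abs_one]

lemma sum_le (f : ℝ → T2) (K : ℕ)
    (h : ∀ k : ℕ, 1 ≤ k → k ≤ K → ∃ s ∈ Icc (1 / (k + 1 : ℝ)) (1 / k), 1 ≤ dist (f (1 / (k + 1))) (f s)) :
    (K : ℝ≥0∞) ≤ eVariationOn f (Icc (1 / (K + 1 : ℝ)) 1) := by
  induction K with
  | zero => simp
  | succ K ih =>
    have h1 := ih fun k a b => h k a (b.trans K.le_succ)
    obtain ⟨s, hs, h2⟩ := h (K + 1) (by omega) le_rfl
    have hK : (0 : ℝ) ≤ K := K.cast_nonneg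
    push_cast at hs h2 ⊢
    have := eVariationOn.Icc_add_Icc f (s := univ) (hs.1.trans hs.2)
      (show 1 / (K + 1 : ℝ) ≤ 1 by rw [div_le_one (by positivity)]; linarith) trivial
    simp only [univ_inter] at this
    rw [← this, add_comm]
    refine add_le_add (le_trans ?_ (eVariationOn.edist_le f ⟨le_rfl, hs.1.trans hs.2⟩ hs)) h1
    rw [edist_dist, ← ENNReal.ofReal_one]
    exact ENNReal.ofReal_le_ofReal h2

lemma hit {Φ : ℝ → E → E} (h0 : ∀ x, Φ 0 x = x) (h1 : ∀ t x, HasDerivAt (fun s => Φ s x) (U (Φ t x)) t)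
    {l : ℝ → E} (hl : Continuous l) {a b t : ℝ} (hab : a ≤ b) (ht : 0 ≤ t)
    (p0 : ∀ s ∈ Icc a b, 0 ≤ l s 0 ∧ 0 ≤ l s 1 ∧ l s 1 ≤ 1) (ha : l a 0 = 0)
    (hb : 1 ≤ l b 0 * exp (t / 4)) : Φ t (l a) 0 = 0 ∧ ∃ s ∈ Icc a b, Φ t (l s) 0 = 1 := by
  have hX : ∀ x τ, HasDerivAt (fun s => Φ s x 0) (cos (Φ τ x 1) * sin (Φ τ x 0)) τ := fun x τ =>
    ((co 0 _).comp_hasDerivAt τ (h1 τ x)).congr_deriv (by simp [U]; ring)
  have hY : ∀ x τ, HasDerivAt (fun s => Φ s x 1) (-cos (Φ τ x 0) * sin (Φ τ x 1)) τ := fun x τ =>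
    ((co 1 _).comp_hasDerivAt τ (h1 τ x)).congr_deriv (by simp [U])
  have cΦ : ∀ x, Continuous fun s => Φ s x := fun x =>
    continuous_iff_continuousAt.2 fun t => (h1 t x).continuousAt
  have z : ∀ τ, Φ τ (l a) 0 = 0 := fun τ => by
    obtain ⟨c, -, e⟩ := sgn (a := fun τ => cos (Φ τ (l a) 1)) (by fun_prop) (hX (l a)) τ
    rw [e, h0, ha, zero_mul]
  refine ⟨z t, ?_⟩
  have jc : Continuous fun q : E × Icc 0 t => Φ q.2 q.1 := by
    refine continuous_prod_of_continuous_lipschitzWith _ (exp (4 * t)).toNNReal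
      (fun x => (cΦ x).comp continuous_subtype_val) fun τ => LipschitzWith.of_dist_le_mul fun x y => ?_
    have := dist_le_of_trajectories_ODE (v := fun _ => U) (K := 4) (f := fun s => Φ s x)
      (g := fun s => Φ s y) (a := 0) (b := t) (δ := dist x y) (fun _ => U_lip) (cΦ x).continuousOn
      (fun s _ => (h1 s x).hasDerivWithinAt) (cΦ y).continuousOn
      (fun s _ => (h1 s y).hasDerivWithinAt) (by simp [h0]) τ τ.2
    refine this.trans ?_
    rw [Real.coe_toNNReal _ (exp_pos _).le, mul_comm]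
    refine mul_le_mul_of_nonneg_right (exp_le_exp.2 ?_) dist_nonneg
    have := τ.2.2
    push_cast; linarith
  set f : ℝ → Icc 0 t → ℝ := fun s τ => Φ τ (l s) 0 with hf
  have cf : Continuous ↿f := by
    have : Continuous fun q : ℝ × Icc 0 t => Φ q.2 (l q.1) :=
      jc.comp ((hl.comp continuous_fst).prodMk continuous_snd)
    exact (EuclideanSpace.proj (0 : Fin 2) : E →L[ℝ] ℝ).continuous.comp this
  have cM := isCompact_univ.continuous_sSup cf
  have : Nonempty (Icc 0 t) := ⟨⟨0, le_rfl, ht⟩⟩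
  have cs : ∀ s, Continuous (f s) := fun s => cf.comp (Continuous.prodMk_right s)
  have ub : ∀ s, ∀ τ ∈ Icc 0 t, Φ τ (l s) 0 ≤ sSup (f s '' univ) := fun s τ hτ =>
    le_csSup (isCompact_univ.image (cs s)).bddAbove ⟨⟨τ, hτ⟩, trivial, rfl⟩
  have ky : ∀ s ∈ Icc a b, sSup (f s '' univ) ≤ 1 → ∀ τ ∈ Icc 0 t,
      Φ τ (l s) 0 * exp ((t - τ) / 4) ≤ Φ t (l s) 0 := fun s hs h =>
    key (hX (l s)) (hY (l s)) (by rw [h0]; exact (p0 s hs).1) (by rw [h0]; exact (p0 s hs).2.1)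
      (by rw [h0]; exact (p0 s hs).2.2) fun τ hτ => (ub s τ hτ).trans h
  have Ma : sSup (f a '' univ) ≤ 1 :=
    csSup_le (univ_nonempty.image _) (by rintro _ ⟨τ, -, rfl⟩; simp only [hf, z]; norm_num)
  have Mb : 1 ≤ sSup (f b '' univ) := by
    by_contra hc
    have := ky b ⟨hab, le_rfl⟩ (not_le.1 hc).le 0 ⟨le_rfl, ht⟩
    rw [h0, sub_zero] at this
    exact hc ((hb.trans this).trans (ub b t ⟨ht, le_rfl⟩))
  obtain ⟨s, hs, e⟩ := intermediate_value_Icc hab cM.continuousOn ⟨Ma, Mb⟩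
  refine ⟨s, hs, le_antisymm ((ub s t ⟨ht, le_rfl⟩).trans e.le) ?_⟩
  obtain ⟨τ, -, e2⟩ := (isCompact_univ.image (cs s)).sSup_mem (univ_nonempty.image _)
  have e3 : Φ τ (l s) 0 = 1 := e2.trans e
  have := ky s hs e.le τ τ.2
  rw [e3, one_mul] at this
  exact (one_le_exp (by linarith [τ.2.2])).trans this

theorem result : ∃ (u : ℝ → E → E) (p : ℝ → E → ℝ) (Φ : ℝ → E → E),
    ContDiff ℝ ⊤ (fun z : ℝ × E => u z.1 z.2) ∧ ContDiff ℝ ⊤ (fun z : ℝ × E => p z.1 z.2) ∧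
    (∀ t x y, proj x = proj y → u t x = u t y ∧ p t x = p t y) ∧
    (∀ t x, deriv (fun s => u s x) t + fderiv ℝ (u t) x (u t x) + gradient (p t) x = 0) ∧
    (∀ t x, ∑ i, fderiv ℝ (u t) x (EuclideanSpace.single i 1) i = 0) ∧
    (∃ M : ℝ, ∀ t x, ‖u t x‖ ≤ M ∧ ‖fderiv ℝ (u t) x‖ ≤ M) ∧
    (∀ x, Φ 0 x = x) ∧ (∀ t x, HasDerivAt (fun s => Φ s x) (u t (Φ t x)) t) ∧
    ∀ r : ℕ, ∃ l : ℝ → E, ContDiff ℝ r l ∧ (∀ s, l s 1 = s) ∧ proj (l 0) ≠ proj (l 1) ∧
      eVariationOn (proj ∘ l) (Icc 0 1) ≠ ⊤ ∧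
      ∃ γ : ℝ, 0 < γ ∧ ∀ᶠ t in atTop,
        ENNReal.ofReal (exp (γ * t)) ≤ eVariationOn (proj ∘ Φ t ∘ l) (Icc 0 1) := by
  choose ψ h0 h1 using glob U 4 4 U_lip U_le
  refine ⟨fun _ => U, fun _ => P, fun t x => ψ x t, U_cd.comp contDiff_snd, P_cd.comp contDiff_snd,
    fun t x y h => ?_, fun t x => ?_, fun t x => ?_, ⟨4, fun t x => ⟨U_le x, dU_le x⟩⟩, h0,
    fun t x => h1 x t, fun r => ?_⟩
  · simp only [U, P, (per h 0).1, (per h 0).2, (per h 1).1, (per h 1).2, and_self]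
  · rw [dU, gP, deriv_const]
    ext i
    fin_cases i <;> simp [U]
    · linear_combination (sin (x 0) * cos (x 0)) * sin_sq_add_cos_sq (x 1)
    · linear_combination (sin (x 1) * cos (x 1)) * sin_sq_add_cos_sq (x 0)
  · simp [dU]
  set m := 2 * r + 3 with hm
  set g : ℝ → ℝ := fun s => (s ^ m + s ^ m * sin (2 * π / s + -(π / 2))) / 2 with hg
  have gc : ContDiff ℝ (r + 1 : ℕ) g :=
    ((contDiff_id.pow m).add (osc_cd _ (r + 1) m (by omega) _)).div_const 2
  set l : ℝ → E := fun s => g s • EuclideanSpace.single 0 1 + s • EuclideanSpace.single 1 1 with hl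
  have lc : ContDiff ℝ (r + 1 : ℕ) l := (gc.smul contDiff_const).add (contDiff_id.smul contDiff_const)
  have l0 : ∀ s, l s 0 = g s := fun s => by simp [hl]
  have l1 : ∀ s, l s 1 = s := fun s => by simp [hl]
  refine ⟨l, lc.of_le (by exact_mod_cast r.le_succ), l1, fun h => ?_, ?_, 1 / (8 * m), by positivity, ?_⟩
  · have := one_le 1 (l1 0) (l1 1)
    rw [h, dist_self] at this
    linarith
  · obtain ⟨C, hC⟩ := lc.contDiffOn.exists_lipschitzOnWith (by simp) (convex_Icc (0 : ℝ) 1) isCompact_Icc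
    have hid : BoundedVariationOn (id : ℝ → ℝ) (Icc 0 1) :=
      (monotoneOn_id (s := Icc (0 : ℝ) 1)).boundedVariationOn (C := 1) fun x hx => by
        rw [id, abs_of_nonneg hx.1]; exact hx.2
    exact proj_lip.comp_boundedVariationOn (hC.comp_boundedVariationOn (fun x hx => hx) hid)
  have hm0 : (0 : ℝ) < m := by positivity
  have ht : Tendsto (fun t : ℝ => exp (1 / (8 * m) * t)) atTop atTop :=
    tendsto_exp_atTop.comp (tendsto_id.const_mul_atTop (by positivity))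
  filter_upwards [ht.eventually_ge_atTop 3, eventually_ge_atTop 0] with t h3 ht0
  set w := exp (1 / (8 * m) * t) with hw
  set K := ⌊w ^ 2 / 2⌋₊ with hK
  have k1 : w ≤ K := by nlinarith [Nat.lt_floor_add_one (w ^ 2 / 2)]
  have k2 : (K : ℝ) ≤ w ^ 2 / 2 := Nat.floor_le (by positivity)
  have main := sum_le (proj ∘ (fun x => ψ x t) ∘ l) K fun k hk hkK => by
    have k0 : (1 : ℝ) ≤ k := by exact_mod_cast hk
    have kK : (k : ℝ) ≤ K := by exact_mod_cast hkK
    have hab : 1 / (k + 1 : ℝ) ≤ 1 / (k + 1 / 2 : ℝ) :=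
      one_div_le_one_div_of_le (by positivity) (by linarith)
    have hbc : 1 / (k + 1 / 2 : ℝ) ≤ 1 / k := one_div_le_one_div_of_le (by positivity) (by linarith)
    obtain ⟨z, s, hs, e⟩ := hit (Φ := fun t x => ψ x t) h0 (fun t x => h1 x t) lc.continuous hab ht0
      (fun s hs => by
        have s0 : 0 ≤ s := le_trans (by positivity) hs.1
        refine ⟨?_, by rw [l1]; exact s0, ?_⟩
        · rw [l0]
          have := mul_nonneg (pow_nonneg s0 m) (sub_nonneg.2 (neg_one_le_sin (2 * π / s + -(π / 2))))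
          simp only [hg]; linarith
        · rw [l1]; exact (hs.2.trans hbc).trans (by rw [div_le_one (by positivity)]; exact k0))
      (by
        rw [l0]; simp only [hg]
        rw [show 2 * π / (1 / (k + 1 : ℝ)) + -(π / 2) = -(π / 2) + (k + 1 : ℕ) * (2 * π) by
          push_cast; field_simp; ring, sin_add_nat_mul_two_pi, sin_neg, sin_pi_div_two]
        ring)
      (by
        rw [l0]; simp only [hg]
        rw [show 2 * π / (1 / (k + 1 / 2 : ℝ)) + -(π / 2) = π / 2 + k * (2 * π) by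
          field_simp; ring, sin_add_nat_mul_two_pi, sin_pi_div_two,
          show exp (t / 4) = (w ^ 2) ^ m by
            rw [hw, ← exp_nat_mul, ← exp_nat_mul]; congr 1; push_cast; field_simp; ring, mul_one,
          add_self_div_two, ← mul_pow]
        refine one_le_pow₀ ?_
        rw [one_div, ← div_eq_inv_mul, le_div_iff₀ (by positivity)]
        linarith)
    exact ⟨s, ⟨hs.1, hs.2.trans hbc⟩, one_le 0 z e⟩
  refine le_trans ?_ (main.trans (eVariationOn.mono _ (Icc_subset_Icc_left (by positivity))))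
  rw [← ENNReal.ofReal_natCast]
  exact ENNReal.ofReal_le_ofReal k1

end Pool.Agent.Results.MP_d5a48f_an.Cellular
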